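import Pool.Agent.H282R5.PD.Defs
import Pool.Agent.H282R3.SQ.Defs

/-! STUB (statements only). -/

namespace H282R5.PD

open MeasureTheory
open scoped ENNReal
open H282R3.SQ (USq)
open H282R4.PU (ax al t s tau kap eps phi Z SP Row T1)

theorem choose_A {d : ℕ} (hd : 100 ≤ d) {n : ℕ} (hn : 20 * (d : ℝ) ^ 4 ≤ n) {ε : ℝ} (h0 : 0 < ε)
    (h1 : ε < 1) :
    ∃ N M : ℕ, N ≤ n ∧ 4 * (d : ℝ) ^ 4 ≤ n + ε - N ∧ n + ε - N ≤ 9 * (d : ℝ) ^ 4 ∧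
      (n + ε - N) * s d + t d ≤ M ∧ (M : ℝ) ≤ (n + ε - N) * s d + t d + 1 / (d : ℝ) ^ 2 := sorry

end H282R5.PD
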