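import Pool.Agent.H282R5.PD.Defs
import Pool.Agent.H282R3.SQ.Defs

/-! STUB (statements only). -/

namespace H282R5.PD

open MeasureTheory
open scoped ENNReal
open H282R3.SQ (USq)
open H282R4.PU (ax al t s tau kap eps phi Z SP Row T1)

theorem count_sum {d H : ℕ} (hd : 100 ≤ d) (hH : 6 * d ^ 2 ≤ H) (hH' : H ≤ 30 * d ^ 2) :
    ∑ a ∈ idx d H, wt d H a ≤ 500 * (d : ℝ) ^ 2 := sorry

end H282R5.PD
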