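import Pool.Agent.H282R5.PD.Defs
import Pool.Agent.H282R3.SQ.Defs

/-! STUB (statements only). -/

namespace H282R5.PD

open MeasureTheory
open scoped ENNReal
open H282R3.SQ (USq)
open H282R4.PU (ax al t s tau kap eps phi Z SP Row T1)

theorem LC_wc {d : ℕ} (hd : 100 ≤ d) {q j : ℕ} (hq : q < d) (hj : j < d ^ 2) (h : 1 ≤ j ∨ q = 0) :
    Wc (LC d q j) (10 / d) := sorry

theorem LC_wc0 {d : ℕ} (hd : 100 ≤ d) {q : ℕ} (hq : q < d) : Wc (LC d q 0) (6 * d) := sorry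

end H282R5.PD
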