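import Pool.Agent.H282R5.PD.Defs
import Pool.Agent.H282R3.SQ.Defs

/-! STUB (statements only). -/

namespace H282R5.PD

open MeasureTheory
open scoped ENNReal
open H282R3.SQ (USq)
open H282R4.PU (ax al t s tau kap eps phi Z SP Row T1)

theorem LC_right {d : ℕ} (hd : 100 ≤ d) {q j : ℕ} (h1 : 1 ≤ q) (hq : q < d) (hj : j < d ^ 2)
    (hj1 : 1 ≤ j) : LC0 d q j ⊆ RightOf d (q - 1) := sorry

theorem right_anti {d : ℕ} (hd : 100 ≤ d) {q q' : ℕ} (h : q ≤ q') (hq : q' < d) {z : ℝ × ℝ}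
    (hz : z ∈ RightOf d q') (h0 : 0 ≤ z.2) (h1 : z.2 ≤ 40 * (d : ℝ) ^ 2) : z ∈ RightOf d q := sorry

theorem LC_left {d : ℕ} (hd : 100 ≤ d) {q j : ℕ} (hq : q < d) (hj : j < d ^ 2) {z : ℝ × ℝ}
    (hz : z ∈ LC0 d q j) : z ∉ RightOf d q ∧ 0 ≤ z.1 ∧ 0 ≤ z.2 ∧ z.2 ≤ 7 * (d : ℝ) ^ 2 := sorry

theorem seg_left {d H : ℕ} (hd : 100 ≤ d) (hH : 6 * d ^ 2 ≤ H) (hH' : H ≤ 30 * d ^ 2) {q R : ℕ}
    (hq : q ≤ d) (h : Active d H q R) {z : ℝ × ℝ} (hz : z ∈ Seg d H q R) :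
    (q < d → z ∉ RightOf d q) ∧ 0 ≤ z.1 ∧ 0 ≤ z.2 ∧ z.2 ≤ 40 * (d : ℝ) ^ 2 := sorry

/-- the floor condition in the segments is automatic, except for the segment `(0,0)` -/
theorem seg_floor {d H : ℕ} (hd : 100 ≤ d) {q R : ℕ} (hq : q ≤ d) (h : Active d H q R)
    (h0 : ¬ (q = 0 ∧ R = 0)) {z : ℝ × ℝ} (hz : z ∈ Row d R ∩ LeftC d H q R ∩ RightC d q R) :
    0 ≤ z.2 := sorry

end H282R5.PD
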