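import Pool.Agent.H282R5.PD.Defs
import Pool.Agent.H282R3.SQ.Defs

/-! STUB (statements only). -/

namespace H282R5.PD

open MeasureTheory
open scoped ENNReal
open H282R3.SQ (USq)
open H282R4.PU (ax al t s tau kap eps phi Z SP Row T1)

theorem rect_big {d M : ℕ} (hd : 100 ≤ d) {A X : ℝ} (hA : 4 * (d : ℝ) ^ 4 ≤ A)
    (hA' : A ≤ 9 * (d : ℝ) ^ 4) (h1 : A * s d + t d ≤ M)
    (h2 : M ≤ A * s d + t d + 1 / (d : ℝ) ^ 2) (hX : 60 * (d : ℝ) ^ 2 ≤ X) :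
    Wc (Set.Icc 0 A ×ˢ Set.Icc 0 X)
      (14000 * (d : ℝ) ^ 3 + (X + 20 * (d : ℝ) ^ 2) * (4 / (d : ℝ) ^ 2)) := sorry

end H282R5.PD
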