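import Pool.Agent.H282R5.PD.Defs
import Pool.Agent.H282R3.SQ.Defs

/-! STUB (statements only). -/

namespace H282R5.PD

open MeasureTheory
open scoped ENNReal
open H282R3.SQ (USq)
open H282R4.PU (ax al t s tau kap eps phi Z SP Row T1)

theorem seg_any {d H : ℕ} (hd : 100 ≤ d) {q R : ℕ} (hq : q ≤ d) (h : Active d H q R)
    (h0 : ¬ (q = 0 ∧ R = 0)) : Wc (Seg d H q R) 3 := sorry

theorem seg_00 {d H : ℕ} (hd : 100 ≤ d) (h : Active d H 0 0) : Wc (Seg d H 0 0) (8 * d) := sorry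

end H282R5.PD
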