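import Pool.Agent.H282R5.PD.Defs
import Pool.Agent.H282R3.SQ.Defs

/-! STUB (statements only). -/

namespace H282R5.PD

open MeasureTheory
open scoped ENNReal
open H282R3.SQ (USq)
open H282R4.PU (ax al t s tau kap eps phi Z SP Row T1)

theorem seg_short {d H : ℕ} (hd : 100 ≤ d) {q R : ℕ} (h1 : 1 ≤ q) (hq : q < d)
    (h : Active d H q R) (h' : Active d H (q - 1) R) : Wc (Seg d H q R) (40 / d) := sorry

end H282R5.PD
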