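import Pool.Agent.H282R5.PD.Defs
import Pool.Agent.H282R3.SQ.Defs

/-! STUB (statements only). -/

namespace H282R5.PD

open MeasureTheory
open scoped ENNReal
open H282R3.SQ (USq)
open H282R4.PU (ax al t s tau kap eps phi Z SP Row T1)

/-- the square of side `n + ε` can be covered with waste `O(n^(3/5))` -/
theorem square_wc : ∃ C : ℝ, 0 < C ∧ ∀ n : ℕ, 1 ≤ n → ∀ ε : ℝ, 0 < ε → ε < 1 →
    Wc (Set.Icc 0 (n + ε) ×ˢ Set.Icc 0 (n + ε)) (C * (n : ℝ) ^ ((3 : ℝ) / 5)) := sorry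

end H282R5.PD
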