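import Pool.Agent.H282R5.PD.Defs
import Pool.Agent.H282R3.SQ.Defs

/-! STUB (statements only). -/

namespace H282R5.PD

open MeasureTheory
open scoped ENNReal
open H282R3.SQ (USq)
open H282R4.PU (ax al t s tau kap eps phi Z SP Row T1)

theorem canCover_of_Covs {x : ℝ} {m : ℕ} (h : Covs (Set.Icc 0 x ×ˢ Set.Icc 0 x) m) :
    H282R3.SQ.CanCover x m := sorry

theorem P_le_of_CanCover {n : ℕ} {ε : ℝ} {m : ℕ} (hε : 0 < ε)
    (h : H282R3.SQ.CanCover (n + ε) m) : H282R3.SQ.P n ≤ m := sorry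

/-- the upper bound for `P(n)` -/
theorem P_upper : ∃ C : ℝ, 0 < C ∧ ∀ n : ℕ, 1 ≤ n →
    (H282R3.SQ.P n : ℝ) - (n : ℝ) ^ 2 ≤ C * (n : ℝ) ^ ((3 : ℝ) / 5) := sorry

end H282R5.PD
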