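import Pool.Agent.H282R5.PD.Defs
import Pool.Agent.H282R3.SQ.Defs

/-! STUB (statements only). -/

namespace H282R5.PD

open MeasureTheory
open scoped ENNReal
open H282R3.SQ (USq)
open H282R4.PU (ax al t s tau kap eps phi Z SP Row T1)

theorem Wc_mono {Ω : Set (ℝ × ℝ)} {w w' : ℝ} (h : Wc Ω w) (hw : w ≤ w') : Wc Ω w' := sorry

theorem Covs_mono {Ω Ω' : Set (ℝ × ℝ)} {n : ℕ} (h : Covs Ω n) (hs : Ω' ⊆ Ω) : Covs Ω' n := sorry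

theorem Covs_add {Ω Ω' : Set (ℝ × ℝ)} {n m : ℕ} (h : Covs Ω n) (h' : Covs Ω' m) :
    Covs (Ω ∪ Ω') (n + m) := sorry

theorem Covs_closure {Ω : Set (ℝ × ℝ)} {n : ℕ} (h : Covs Ω n) : Covs (closure Ω) n := sorry

theorem Wc_union {ι : Type*} (S : Finset ι) (Ω E : Set (ℝ × ℝ)) (C : ι → Set (ℝ × ℝ)) (w : ι → ℝ)
    (m : ℕ) (hsub : ∀ i ∈ S, C i ⊆ Ω) (hm : ∀ i ∈ S, NullMeasurableSet (C i))
    (hdis : ∀ i ∈ S, ∀ j ∈ S, i ≠ j → AEDisjoint volume (C i) (C j))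
    (hcov : Ω ⊆ closure ((⋃ i ∈ S, C i) ∪ E)) (hE : Covs E m)
    (hw : ∀ i ∈ S, Wc (C i) (w i)) : Wc Ω (∑ i ∈ S, w i + m) := sorry

theorem Wc_translate {Ω : Set (ℝ × ℝ)} {w : ℝ} (h : Wc Ω w) (v : ℝ × ℝ) :
    Wc {z | (z.1 - v.1, z.2 - v.2) ∈ Ω} w := sorry

theorem Wc_rot {Ω : Set (ℝ × ℝ)} {w : ℝ} (h : Wc Ω w) (v : ℝ × ℝ) :
    Wc {z | (v.1 - z.1, v.2 - z.2) ∈ Ω} w := sorry

theorem Wc_swap {Ω : Set (ℝ × ℝ)} {w : ℝ} (h : Wc Ω w) : Wc {z | (z.2, z.1) ∈ Ω} w := sorry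

end H282R5.PD
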