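import Pool.Agent.H282R5.PD.Defs
import Pool.Agent.H282R3.SQ.Defs

/-! STUB (statements only). -/

namespace H282R5.PD

open MeasureTheory
open scoped ENNReal
open H282R3.SQ (USq)
open H282R4.PU (ax al t s tau kap eps phi Z SP Row T1)

theorem triv_wc {x1 x2 m h : ℝ} (hx : x1 ≤ x2) (h0 : 0 ≤ x1) (hm : 0 ≤ m) (hm1 : m ≤ 1)
    (hh : m * x2 ≤ h) :
    Wc {z : ℝ × ℝ | x1 ≤ z.1 ∧ z.1 < x2 ∧ 0 ≤ z.2 ∧ z.2 + m * z.1 < h} (2 * (x2 - x1) + h + 4) :=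
  sorry

end H282R5.PD
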